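import Pool.Agent.Helper59.Wav.Torus
import Pool.Agent.Helper67.Wav.Four
import Pool.Agent.Helper22.Wav.Marg

/-!
# Bessel bound for one scale of an affine system
-/

open MeasureTheory
open scoped FourierTransform RealInnerProductSpace Matrix ENNReal ComplexConjugate

noncomputable section

namespace Wav

/-- Cauchy-Schwarz for sums in `ℝ≥0∞`. -/
theorem tsum_mul_sq_le {ι : Type*} (f g : ι → ℝ≥0∞) :
    (∑' i, f i * g i) ^ 2 ≤ (∑' i, f i ^ 2) * ∑' i, g i ^ 2 := by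
  have hfin : ∀ s : Finset ι, ∑ i ∈ s, f i * g i ≤
      (∑' i, f i ^ 2) ^ (1 / 2 : ℝ) * (∑' i, g i ^ 2) ^ (1 / 2 : ℝ) := by
    intro s
    have h := ENNReal.inner_le_Lp_mul_Lq s f g (p := 2) (q := 2) Real.HolderConjugate.two_two
    refine h.trans ?_
    simp only [ENNReal.rpow_two]
    gcongr
    · exact ENNReal.sum_le_tsum s
    · exact ENNReal.sum_le_tsum s
  have h1 : (∑' i, f i * g i) ≤
      (∑' i, f i ^ 2) ^ (1 / 2 : ℝ) * (∑' i, g i ^ 2) ^ (1 / 2 : ℝ) := by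
    rw [ENNReal.tsum_eq_iSup_sum]
    exact iSup_le hfin
  calc (∑' i, f i * g i) ^ 2
      ≤ ((∑' i, f i ^ 2) ^ (1 / 2 : ℝ) * (∑' i, g i ^ 2) ^ (1 / 2 : ℝ)) ^ 2 := by gcongr
    _ = _ := by
      rw [mul_pow, ← ENNReal.rpow_two, ← ENNReal.rpow_two, ← ENNReal.rpow_mul, ← ENNReal.rpow_mul]
      norm_num

theorem volume_cube_lt_top (ι : Type*) [Fintype ι] :
    (volume : Measure (ι → ℝ)) (cube ι) < ∞ := by
  have h : cube ι ⊆ Set.Icc (0 : ι → ℝ) (1 : ι → ℝ) := by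
    intro x hx
    constructor
    · intro i; exact (hx i).1.le
    · intro i; simpa using (hx i).2
  exact (measure_mono h).trans_lt isCompact_Icc.measure_lt_top

theorem lintegral_act {n : ℕ} {M : Matrix (Fin n) (Fin n) ℝ} (hM : M.det ≠ 0) (g : E n → ℝ≥0∞) :
    ∫⁻ x, g (act M x) = ENNReal.ofReal |(M.det)⁻¹| * ∫⁻ y, g y := by
  rw [← (act_emb hM).lintegral_map, map_act hM, lintegral_smul_measure]
  rfl

theorem chr_eq_ee {n : ℕ} (k : Fin n → ℤ) (x : Fin n → ℝ) :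
    chr k x = ee ⟪ivec k, (WithLp.toLp 2 x : E n)⟫ := by
  unfold chr ee
  congr 2
  simp only [ivec, EuclideanSpace.inner_eq_star_dotProduct, star_trivial, dotProduct]
  push_cast
  refine Finset.sum_congr rfl fun i _ => ?_
  ring

/-- Module NA. Bessel bound for one scale. -/
theorem bessel_scale {n : ℕ} {A : Matrix (Fin n) (Fin n) ℝ} (hA : A.det ≠ 0) {Ψ : E n → ℂ}
    (hΨ : Continuous Ψ) (j : ℤ) {S : Set (E n)} (hS : MeasurableSet S) {M : ℝ≥0∞} (hM' : M ≠ ∞)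
    (hM : ∀ η : E n, ∑' m : Fin n → ℤ,
      S.indicator (fun ξ => ‖Ψ (act (Aᵀ ^ (-j)) ξ)‖ₑ ^ 2) (act (Aᵀ ^ j) (η + ivec m)) ≤ M)
    {f : E n → ℂ} (hf : MemLp f 2 volume) (hfS : ∀ᵐ ξ : E n, ξ ∉ S → f ξ = 0) :
    ∑' k : Fin n → ℤ, ‖∫ ξ, conj (faff A Ψ j k ξ) * f ξ‖ₑ ^ 2 ≤ M * ∫⁻ ξ, ‖f ξ‖ₑ ^ 2 := by
  have hu : IsUnit A.det := isUnit_iff_ne_zero.2 hA
  have hBdet : (Aᵀ).det ≠ 0 := by rwa [Matrix.det_transpose]
  have huB : IsUnit (Aᵀ).det := isUnit_iff_ne_zero.2 hBdet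
  have hBj : (Aᵀ ^ j).det ≠ 0 := (huB.det_zpow j).ne_zero
  have hD : 0 < |A.det| := abs_pos.2 hA
  have hdetj : |(Aᵀ ^ j).det| = |A.det| ^ (j : ℝ) := by
    rw [det_zpow' hBdet, Matrix.det_transpose, abs_zpow, Real.rpow_intCast]
  have htr : (A ^ (-j))ᵀ = Aᵀ ^ (-j) := by rw [Matrix.transpose_zpow]
  have hinv : ∀ x : E n, act (Aᵀ ^ (-j)) (act (Aᵀ ^ j) x) = x := by
    intro x
    rw [← act_mul, Matrix.zpow_neg_mul_zpow_self _ huB, act_one]
  -- replace `f` by its restriction to `S`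
  set f' : E n → ℂ := S.indicator f with hf'
  have hff' : f =ᵐ[volume] f' := by
    filter_upwards [hfS] with ξ hξ
    by_cases h : ξ ∈ S
    · rw [hf', Set.indicator_of_mem h]
    · rw [hf', Set.indicator_of_notMem h, hξ h]
  have hf2 : MemLp f' 2 volume := hf.indicator hS
  set c : ℝ := |A.det| ^ ((j : ℝ) / 2) with hc
  have hc0 : 0 < c := by positivity
  set F : (Fin n → ℝ) → ℂ := fun x =>
    (c : ℂ) * conj (Ψ (WithLp.toLp 2 x)) * f' (act (Aᵀ ^ j) (WithLp.toLp 2 x)) with hF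
  have hmp := PiLp.volume_preserving_toLp (Fin n)
  -- the integrals
  have hint : ∀ k : Fin n → ℤ, ∫ ξ, conj (faff A Ψ j k ξ) * f ξ = ∫ x, chr k x * F x := by
    intro k
    have e1 : ∫ ξ, conj (faff A Ψ j k ξ) * f ξ = ∫ ξ, conj (faff A Ψ j k ξ) * f' ξ := by
      refine integral_congr_ae ?_
      filter_upwards [hff'] with ξ hξ
      rw [hξ]
    rw [e1]
    have e2 := integral_act hBj (fun ξ => conj (faff A Ψ j k ξ) * f' ξ)
    have e3 : ∫ ξ, conj (faff A Ψ j k ξ) * f' ξ =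
        ((|(Aᵀ ^ j).det| : ℝ) : ℂ) * ∫ x, conj (faff A Ψ j k (act (Aᵀ ^ j) x)) *
          f' (act (Aᵀ ^ j) x) := by
      rw [e2, ← mul_assoc, ← Complex.ofReal_mul, mul_inv_cancel₀ (abs_ne_zero.2 hBj)]
      simp
    rw [e3, ← integral_const_mul, ← hmp.integral_comp
      (MeasurableEquiv.toLp 2 (Fin n → ℝ)).measurableEmbedding]
    refine integral_congr_ae (Filter.Eventually.of_forall fun x => ?_)
    simp only [faff, hF, chr_eq_ee]
    rw [htr, hinv, inner_act, htr, hinv, hdetj]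
    simp only [map_mul, ee_conj, Complex.conj_ofReal, neg_neg]
    have e4 : ((|A.det| ^ (j : ℝ) : ℝ) : ℂ) * ((|A.det| ^ (-(j : ℝ) / 2) : ℝ) : ℂ) = (c : ℂ) := by
      rw [← Complex.ofReal_mul, hc, ← Real.rpow_add hD]
      congr 2
      ring
    rw [← e4]
    ring
  -- measurability of `F`
  have hfm : AEStronglyMeasurable (fun x : Fin n → ℝ => f' (act (Aᵀ ^ j) (WithLp.toLp 2 x)))
      volume := by
    have h1 : AEStronglyMeasurable f' (Measure.map (act (Aᵀ ^ j)) volume) := by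
      rw [map_act hBj]
      exact hf2.aestronglyMeasurable.smul_measure _
    have h2 : AEStronglyMeasurable (fun x : E n => f' (act (Aᵀ ^ j) x)) volume :=
      h1.comp_measurable (act_emb hBj).measurable
    exact h2.comp_measurePreserving hmp
  have hFm : AEStronglyMeasurable F volume := by
    refine AEStronglyMeasurable.mul ?_ hfm
    refine AEStronglyMeasurable.const_mul ?_ _
    have h1 : Continuous (fun x : Fin n → ℝ => conj (Ψ (WithLp.toLp 2 x))) :=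
      Complex.continuous_conj.comp (hΨ.comp (PiLp.continuous_toLp 2 _))
    exact h1.aestronglyMeasurable
  -- pointwise bound of the periodization
  set G : (Fin n → ℝ) → ℝ≥0∞ := fun x =>
    (‖(c : ℂ)‖ₑ * ‖f' (act (Aᵀ ^ j) (WithLp.toLp 2 x))‖ₑ) ^ 2 with hG
  have hGm : AEMeasurable G volume := by
    exact (hfm.enorm.const_mul _).pow_const 2
  have hpt : ∀ x, (per (fun y => ‖F y‖ₑ) x) ^ 2 ≤ M * per G x := by
    intro x
    unfold per
    have e1 : ∀ m : Fin n → ℤ, ‖F (x + zv m)‖ₑ =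
        S.indicator (fun ξ => ‖Ψ (act (Aᵀ ^ (-j)) ξ)‖ₑ)
          (act (Aᵀ ^ j) ((WithLp.toLp 2 x : E n) + ivec m)) *
        (‖(c : ℂ)‖ₑ * ‖f' (act (Aᵀ ^ j) (WithLp.toLp 2 (x + zv m)))‖ₑ) := by
      intro m
      have e2 : (WithLp.toLp 2 (x + zv m) : E n) = (WithLp.toLp 2 x : E n) + ivec m := rfl
      simp only [hF, e2]
      by_cases h : act (Aᵀ ^ j) ((WithLp.toLp 2 x : E n) + ivec m) ∈ S
      · rw [Set.indicator_of_mem h, hinv]
        simp only [enorm_mul]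
        have e3 : ‖conj (Ψ ((WithLp.toLp 2 x : E n) + ivec m))‖ₑ =
            ‖Ψ ((WithLp.toLp 2 x : E n) + ivec m)‖ₑ := by
          rw [enorm_eq_nnnorm, enorm_eq_nnnorm, RCLike.nnnorm_conj]
        rw [e3]
        ring
      · rw [Set.indicator_of_notMem h, hf', Set.indicator_of_notMem h]
        simp
    simp_rw [e1]
    refine (tsum_mul_sq_le _ _).trans ?_
    gcongr
    refine le_trans (le_of_eq ?_) (hM (WithLp.toLp 2 x))
    refine tsum_congr fun m => ?_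
    by_cases h : act (Aᵀ ^ j) ((WithLp.toLp 2 x : E n) + ivec m) ∈ S
    · rw [Set.indicator_of_mem h, Set.indicator_of_mem h]
    · rw [Set.indicator_of_notMem h, Set.indicator_of_notMem h]
      simp
  -- the integral of `G`
  have hcD : ‖(c : ℂ)‖ₑ ^ 2 * ENNReal.ofReal |((Aᵀ ^ j).det)⁻¹| = 1 := by
    rw [enorm_eq_nnnorm, ← ENNReal.coe_pow]
    have e1 : ((‖(c : ℂ)‖₊ ^ 2 : NNReal) : ℝ≥0∞) = ENNReal.ofReal (c ^ 2) := by
      rw [ENNReal.ofReal]
      congr 1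
      apply NNReal.eq
      rw [Real.coe_toNNReal _ (by positivity)]
      simp
    rw [e1, ← ENNReal.ofReal_mul (by positivity), abs_inv, hdetj, hc, ← Real.rpow_natCast,
      ← Real.rpow_mul hD.le, ← Real.rpow_neg hD.le, ← Real.rpow_add hD]
    have : (j : ℝ) / 2 * (2 : ℕ) + -(j : ℝ) = 0 := by push_cast; ring
    rw [this]
    simp
  have hGint : ∫⁻ x, G x = ∫⁻ ξ, ‖f' ξ‖ₑ ^ 2 := by
    have e1 : ∫⁻ x, G x = ∫⁻ x : E n, (‖(c : ℂ)‖ₑ * ‖f' (act (Aᵀ ^ j) x)‖ₑ) ^ 2 :=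
      hmp.lintegral_comp_emb (MeasurableEquiv.toLp 2 (Fin n → ℝ)).measurableEmbedding
        (fun x : E n => (‖(c : ℂ)‖ₑ * ‖f' (act (Aᵀ ^ j) x)‖ₑ) ^ 2)
    rw [e1, lintegral_act hBj (fun ξ => (‖(c : ℂ)‖ₑ * ‖f' ξ‖ₑ) ^ 2)]
    simp_rw [mul_pow]
    rw [lintegral_const_mul' _ _ (by simp), ← mul_assoc, mul_comm (ENNReal.ofReal _), hcD, one_mul]
  have hff2 : ∫⁻ ξ, ‖f' ξ‖ₑ ^ 2 = ∫⁻ ξ, ‖f ξ‖ₑ ^ 2 := by
    refine lintegral_congr_ae ?_
    filter_upwards [hff'] with ξ hξ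
    rw [hξ]
  have hfin : ∫⁻ ξ, ‖f ξ‖ₑ ^ 2 < ∞ := by
    have := hf.eLpNorm_lt_top
    rw [eLpNorm_lt_top_iff_lintegral_rpow_enorm_lt_top (by norm_num) (by norm_num)] at this
    simpa using this
  have hsq : ∫⁻ x in cube (Fin n), (per (fun y => ‖F y‖ₑ) x) ^ 2 ≤ M * ∫⁻ ξ, ‖f ξ‖ₑ ^ 2 := by
    calc ∫⁻ x in cube (Fin n), (per (fun y => ‖F y‖ₑ) x) ^ 2
        ≤ ∫⁻ x in cube (Fin n), M * per G x := lintegral_mono fun x => hpt x
      _ = M * ∫⁻ x in cube (Fin n), per G x := lintegral_const_mul' _ _ hM'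
      _ = M * ∫⁻ ξ, ‖f ξ‖ₑ ^ 2 := by rw [lintegral_per hGm, hGint, hff2]
  have hsqfin : ∫⁻ x in cube (Fin n), (per (fun y => ‖F y‖ₑ) x) ^ 2 < ∞ :=
    hsq.trans_lt (ENNReal.mul_lt_top (lt_top_iff_ne_top.2 hM') hfin)
  -- integrability of `F`
  have hFint : Integrable F := by
    refine ⟨hFm, ?_⟩
    unfold HasFiniteIntegral
    rw [← lintegral_per hFm.enorm]
    calc ∫⁻ x in cube (Fin n), per (fun y => ‖F y‖ₑ) x
        ≤ ∫⁻ x in cube (Fin n), (1 + (per (fun y => ‖F y‖ₑ) x) ^ 2) := by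
          refine lintegral_mono fun x => ?_
          rcases le_total (per (fun y => ‖F y‖ₑ) x) 1 with h | h
          · exact h.trans le_self_add
          · refine le_trans ?_ le_add_self
            calc per (fun y => ‖F y‖ₑ) x = per (fun y => ‖F y‖ₑ) x * 1 := (mul_one _).symm
              _ ≤ per (fun y => ‖F y‖ₑ) x * per (fun y => ‖F y‖ₑ) x := by gcongr
              _ = _ := by ring
      _ = volume (cube (Fin n)) + ∫⁻ x in cube (Fin n), (per (fun y => ‖F y‖ₑ) x) ^ 2 := by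
          rw [lintegral_add_left measurable_const]
          simp
      _ < ∞ := ENNReal.add_lt_top.2 ⟨volume_cube_lt_top _, hsqfin⟩
  have hperm : AEStronglyMeasurable (per F) (volume.restrict (cube (Fin n))) := by
    unfold per
    exact (AEMeasurable.tsum fun m =>
      (aesm_shift hFm m).aemeasurable.restrict).aestronglyMeasurable
  have hperle : ∀ᵐ x ∂(volume.restrict (cube (Fin n))), ‖per F x‖ₑ ≤ per (fun y => ‖F y‖ₑ) x := by
    filter_upwards [ae_summable hFint] with x hx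
    unfold per
    exact enorm_tsum_le_tsum_enorm
  have hperL2 : MemLp (per F) 2 (volume.restrict (cube (Fin n))) := by
    refine ⟨hperm, ?_⟩
    rw [eLpNorm_lt_top_iff_lintegral_rpow_enorm_lt_top (by norm_num) (by norm_num)]
    refine lt_of_le_of_lt ?_ hsqfin
    refine lintegral_mono_ae ?_
    filter_upwards [hperle] with x hx
    simp only [ENNReal.toReal_ofNat, ENNReal.rpow_two]
    gcongr
  have hP := parseval_per hFint hperL2
  have hPint : Integrable (fun x => ‖per F x‖ ^ 2) (volume.restrict (cube (Fin n))) :=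
    (memLp_two_iff_integrable_sq_norm hperm).1 hperL2
  simp_rw [hint]
  have e5 : ∀ k : Fin n → ℤ, ‖∫ x, chr k x * F x‖ₑ ^ 2 =
      ENNReal.ofReal (‖∫ x, chr k x * F x‖ ^ 2) := by
    intro k
    rw [← ofReal_norm, ENNReal.ofReal_pow (norm_nonneg _)]
  simp_rw [e5]
  rw [← ENNReal.ofReal_tsum_of_nonneg (fun k => by positivity) hP.summable, hP.tsum_eq,
    ofReal_integral_eq_lintegral_ofReal hPint (Filter.Eventually.of_forall fun x => by positivity)]
  refine le_trans (lintegral_mono_ae ?_) hsq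
  filter_upwards [hperle] with x hx
  rw [ENNReal.ofReal_pow (norm_nonneg _), ofReal_norm]
  gcongr

end Wav
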