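import Pool.Agent.Helper59.Wav.Win2

/-!
# Orthonormality of the smooth windows
-/

open Real Set
open scoped ComplexConjugate ENNReal

noncomputable section

namespace Wav

namespace E1

variable {ε : ℝ}

/-- a window vanishes far out -/
lemma om_far (hε : 0 < ε) {m : ℕ} (hm : ε * (2 * m + 3) ≤ 1) {y : ℝ} (hy : (m : ℝ) + 1 ≤ |y|) :
    om ε m y = 0 := by
  by_contra h
  have h1 := (om_supp hε h).2
  have hm0 : (0 : ℝ) ≤ m := Nat.cast_nonneg m
  have hε1 : ε < 1 := by nlinarith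
  nlinarith

/-- a finite set of integers containing all the translates near `0` -/
def JJ (b : ℕ) (x : ℝ) : Finset ℤ := Finset.Icc ⌊-x - b⌋ ⌈-x + b⌉

lemma notMem_JJ {b : ℕ} {x : ℝ} {j : ℤ} (hj : j ∉ JJ b x) : (b : ℝ) ≤ |x + j| := by
  unfold JJ at hj
  rw [Finset.mem_Icc, not_and_or, not_le, not_le] at hj
  rcases hj with h | h
  · have h1 : (j : ℝ) < -x - b := by
      have h2 : (j : ℝ) + 1 ≤ (⌊-x - b⌋ : ℤ) := by exact_mod_cast h
      linarith [Int.floor_le (-x - b)]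
    rw [le_abs]
    right
    linarith
  · have h1 : -x + b < (j : ℝ) := by
      have h2 : ((⌈-x + b⌉ : ℤ) : ℝ) < j := by exact_mod_cast h
      linarith [Int.le_ceil (-x + b)]
    rw [le_abs]
    left
    linarith

lemma term_zero (hε : 0 < ε) {m b : ℕ} (hm : ε * (2 * m + 3) ≤ 1) (hb : m < b) {x : ℝ} {j : ℤ}
    (hj : j ∉ JJ b x) : om ε m (x + j) = 0 := by
  apply om_far hε hm
  have h1 := notMem_JJ hj
  have h2 : (m : ℝ) + 1 ≤ b := by exact_mod_cast hb
  linarith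

/-- Hilbert-Schmidt norm of the kernel -/
lemma hs_norm (hε : 0 < ε) (hε1 : ε < 1) {b : ℕ} (hb : 0 < b) (x : ℝ) :
    ∑' j : ℤ, ∑' k : ℤ, ENNReal.ofReal (Kc ε (b / 2) (x + j) k ^ 2) = b := by
  have hb' : (0 : ℝ) < b := by exact_mod_cast hb
  rw [← mu_tsum_nat hε hε1 hb x]
  refine tsum_congr fun j => ?_
  rw [tsum_divmod _ hb, Finset.sum_eq_single_of_mem 0 (Finset.mem_range.2 hb)]
  · have e1 : ∀ z : ℤ, ENNReal.ofReal (Kc ε (b / 2) (x + j) ((b * z + ((0 : ℕ) : ℤ) : ℤ) : ℝ) ^ 2) =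
        ENNReal.ofReal (mu ε (2 * (x + j) / b) ^ 2) *
          ENNReal.ofReal (mu ε (2 * ((x + j) / b + z)) ^ 2) := by
      intro z
      unfold Kc
      rw [if_pos ⟨by linarith, z, by push_cast; ring⟩, mul_pow,
        ENNReal.ofReal_mul (sq_nonneg _)]
      congr 3
      · congr 1
        field_simp
      · congr 1
        push_cast
        field_simp
        ring
    simp_rw [e1]
    rw [ENNReal.tsum_mul_left, mu_tsum hε hε1, mul_one]
  · intro r hr hr0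
    rw [ENNReal.tsum_eq_zero]
    intro z
    have : Kc ε (b / 2) (x + j) ((b * z + (r : ℤ) : ℤ) : ℝ) = 0 := by
      by_contra hne
      obtain ⟨_, w, hw⟩ := Kc_lat hne
      have h1 : ((b * z + (r : ℤ) : ℤ) : ℝ) = ((b * w : ℤ) : ℝ) := by
        rw [hw]
        push_cast
        ring
      have h2 : (b : ℤ) * z + r = b * w := by exact_mod_cast h1
      have h3 : (b : ℤ) ∣ r := ⟨w - z, by linarith⟩
      have h4 : b ∣ r := by exact_mod_cast h3
      exact hr0 (Nat.eq_zero_of_dvd_of_lt h4 (Finset.mem_range.1 hr))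
    rw [this]
    simp

/-- the finite inner product -/
def ip (ε : ℝ) (J : Finset ℤ) (x : ℝ) (m m' : ℕ) : ℂ :=
  ∑ j ∈ J, conj (om ε m (x + j)) * om ε m' (x + j)

lemma tsum_eq_ip (hε : 0 < ε) {m m' b : ℕ} (hm : ε * (2 * m + 3) ≤ 1) (hb : m < b) (x : ℝ) :
    ∑' j : ℤ, conj (om ε m (x + j)) * om ε m' (x + j) = ip ε (JJ b x) x m m' := by
  unfold ip
  rw [tsum_eq_sum]
  intro j hj
  rw [term_zero hε hm hb hj]
  simp

lemma ip_self (hε : 0 < ε) {m b : ℕ} (hm : ε * (2 * m + 3) ≤ 1) (hb : m < b) (x : ℝ) :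
    ip ε (JJ b x) x m m = 1 := by
  have h := om_unit hε hm x
  rw [tsum_eq_sum (s := JJ b x)] at h
  swap
  · intro j hj
    rw [term_zero hε hm hb hj]
    simp
  simp_rw [enorm_sq_eq] at h
  rw [← ENNReal.ofReal_sum_of_nonneg (fun _ _ => sq_nonneg _), ← ENNReal.ofReal_one,
    ENNReal.ofReal_eq_ofReal_iff (Finset.sum_nonneg fun _ _ => sq_nonneg _) zero_le_one] at h
  unfold ip
  have e : ∀ j : ℤ, conj (om ε m (x + j)) * om ε m (x + j) = ((‖om ε m (x + j)‖ ^ 2 : ℝ) : ℂ) := by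
    intro j
    rw [mul_comm, Complex.mul_conj, Complex.normSq_eq_norm_sq]
  simp_rw [e]
  rw [← Complex.ofReal_sum, h]
  simp

lemma sum_ip (hε : 0 < ε) {b : ℕ} (hb : ε * (2 * b + 1) ≤ 1) (hb0 : 0 < b) (x : ℝ) :
    ∑ m ∈ Finset.range b, ∑ m' ∈ Finset.range b, ‖ip ε (JJ b x) x m m'‖ ^ 2 = b := by
  have hbr : (1 : ℝ) ≤ b := by exact_mod_cast hb0
  have hε1 : ε < 1 := by nlinarith
  set J := JJ b x with hJ
  -- the kernel
  have hker : ∀ j j' : ℤ, ∑ m ∈ Finset.range b, om ε m (x + j) * conj (om ε m (x + j')) =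
      ((Kc ε (b / 2) (x + j) ((j' - j : ℤ) : ℝ) : ℝ) : ℂ) := by
    intro j j'
    have h := om_sum hε (Nat.zero_le b) hb (x + j) (j' - j)
    rw [Finset.range_eq_Ico]
    have e : x + j + ((j' - j : ℤ) : ℝ) = x + j' := by push_cast; ring
    rw [e] at h
    rw [h, Kc_nonpos (c := ((0 : ℕ) : ℝ) / 2) (by simp), sub_zero]
  -- expand the squares
  have hexp : (((∑ m ∈ Finset.range b, ∑ m' ∈ Finset.range b, ‖ip ε J x m m'‖ ^ 2 : ℝ)) : ℂ) =
      ((∑ j ∈ J, ∑ j' ∈ J, Kc ε (b / 2) (x + j) ((j' - j : ℤ) : ℝ) ^ 2 : ℝ) : ℂ) := by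
    have e1 : ∀ m m' : ℕ, ((‖ip ε J x m m'‖ ^ 2 : ℝ) : ℂ) = ∑ j ∈ J, ∑ j' ∈ J,
        (om ε m' (x + j) * conj (om ε m' (x + j'))) *
          conj (om ε m (x + j) * conj (om ε m (x + j'))) := by
      intro m m'
      rw [← Complex.normSq_eq_norm_sq, ← Complex.mul_conj]
      unfold ip
      rw [map_sum, Finset.sum_mul_sum]
      refine Finset.sum_congr rfl fun j _ => Finset.sum_congr rfl fun j' _ => ?_
      simp only [map_mul, Complex.conj_conj]
      ring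
    push_cast
    have e2 : ∀ m m' : ℕ, ((‖ip ε J x m m'‖ : ℂ)) ^ 2 = ((‖ip ε J x m m'‖ ^ 2 : ℝ) : ℂ) := by
      intro m m'
      push_cast
      rfl
    simp_rw [e2, e1]
    rw [Finset.sum_comm]
    have e3 : ∀ m' ∈ Finset.range b, ∑ m ∈ Finset.range b, ∑ j ∈ J, ∑ j' ∈ J,
        (om ε m' (x + j) * conj (om ε m' (x + j'))) *
          conj (om ε m (x + j) * conj (om ε m (x + j'))) =
        ∑ j ∈ J, ∑ j' ∈ J, (om ε m' (x + j) * conj (om ε m' (x + j'))) *
          ((Kc ε (b / 2) (x + j) ((j' - j : ℤ) : ℝ) : ℝ) : ℂ) := by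
      intro m' _
      rw [Finset.sum_comm]
      refine Finset.sum_congr rfl fun j _ => ?_
      rw [Finset.sum_comm]
      refine Finset.sum_congr rfl fun j' _ => ?_
      rw [← Finset.mul_sum, ← map_sum, hker, Complex.conj_ofReal]
    rw [Finset.sum_congr rfl e3, Finset.sum_comm]
    refine Finset.sum_congr rfl fun j _ => ?_
    rw [Finset.sum_comm]
    refine Finset.sum_congr rfl fun j' _ => ?_
    rw [← Finset.sum_mul, hker, sq]
    push_cast
    rfl
  have hexp' : ∑ m ∈ Finset.range b, ∑ m' ∈ Finset.range b, ‖ip ε J x m m'‖ ^ 2 =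
      ∑ j ∈ J, ∑ j' ∈ J, Kc ε (b / 2) (x + j) ((j' - j : ℤ) : ℝ) ^ 2 := by
    exact_mod_cast hexp
  rw [hexp']
  -- compare with the infinite sum
  have hinf := hs_norm hε hε1 hb0 x
  have hbc : (0 : ℝ) < b / 2 := by linarith
  have hout : ∀ j : ℤ, j ∉ J → ∀ k : ℝ, Kc ε (b / 2) (x + j) k = 0 := by
    intro j hj k
    apply Kc_out hε
    have := notMem_JJ hj
    nlinarith
  have hout' : ∀ j j' : ℤ, j' ∉ J → Kc ε (b / 2) (x + j) ((j' - j : ℤ) : ℝ) = 0 := by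
    intro j j' hj'
    unfold Kc
    split_ifs
    · rw [mu_zero (x := (x + j + ((j' - j : ℤ) : ℝ)) / (b / 2)) hε, mul_zero]
      have e : x + j + ((j' - j : ℤ) : ℝ) = x + j' := by push_cast; ring
      rw [e, abs_div, abs_of_pos hbc, le_div_iff₀ hbc]
      have := notMem_JJ hj'
      nlinarith
    · rfl
  have hin : ∀ j : ℤ, ∑' k : ℤ, ENNReal.ofReal (Kc ε (b / 2) (x + j) k ^ 2) =
      ENNReal.ofReal (∑ j' ∈ J, Kc ε (b / 2) (x + j) ((j' - j : ℤ) : ℝ) ^ 2) := by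
    intro j
    rw [← (Equiv.subRight j).tsum_eq fun k : ℤ => ENNReal.ofReal (Kc ε (b / 2) (x + j) k ^ 2),
      ENNReal.ofReal_sum_of_nonneg (fun _ _ => sq_nonneg _), tsum_eq_sum (s := J)]
    · rfl
    · intro j' hj'
      simp only [Equiv.subRight_apply]
      rw [hout' j j' hj']
      simp
  simp_rw [hin] at hinf
  rw [tsum_eq_sum (s := J)] at hinf
  swap
  · intro j hj
    have : ∑ j' ∈ J, Kc ε (b / 2) (x + j) ((j' - j : ℤ) : ℝ) ^ 2 = 0 :=
      Finset.sum_eq_zero fun j' _ => by rw [hout j hj]; simp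
    rw [this]
    simp
  rw [← ENNReal.ofReal_sum_of_nonneg (fun _ _ => Finset.sum_nonneg fun _ _ => sq_nonneg _),
    ← ENNReal.ofReal_natCast, ENNReal.ofReal_eq_ofReal_iff
    (Finset.sum_nonneg fun _ _ => Finset.sum_nonneg fun _ _ => sq_nonneg _)
    (Nat.cast_nonneg b)] at hinf
  exact hinf

lemma ip_off (hε : 0 < ε) {b : ℕ} (hb : ε * (2 * b + 1) ≤ 1) (x : ℝ) {m m' : ℕ} (hm : m < b)
    (hm' : m' < b) (hne : m ≠ m') : ip ε (JJ b x) x m m' = 0 := by
  have hb0 : 0 < b := by omega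
  have hsum := sum_ip hε hb hb0 x
  have hdiag : ∀ k < b, ‖ip ε (JJ b x) x k k‖ ^ 2 = 1 := by
    intro k hk
    have hk' : ε * (2 * k + 3) ≤ 1 := by
      have : (k : ℝ) + 1 ≤ b := by exact_mod_cast hk
      nlinarith
    rw [ip_self hε hk' hk]
    simp
  have h1 : ∀ k ∈ Finset.range b, 1 ≤ ∑ k' ∈ Finset.range b, ‖ip ε (JJ b x) x k k'‖ ^ 2 := by
    intro k hk
    rw [← hdiag k (Finset.mem_range.1 hk)]
    exact Finset.single_le_sum (f := fun k' => ‖ip ε (JJ b x) x k k'‖ ^ 2)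
      (fun _ _ => sq_nonneg _) hk
  have h2 : 1 + ‖ip ε (JJ b x) x m m'‖ ^ 2 ≤
      ∑ k' ∈ Finset.range b, ‖ip ε (JJ b x) x m k'‖ ^ 2 := by
    rw [← hdiag m hm]
    have h3 := Finset.sum_le_sum_of_subset_of_nonneg (f := fun k' => ‖ip ε (JJ b x) x m k'‖ ^ 2)
      (s := {m, m'}) (t := Finset.range b) (by
        intro k hk
        rw [Finset.mem_insert, Finset.mem_singleton] at hk
        rcases hk with rfl | rfl
        · exact Finset.mem_range.2 hm
        · exact Finset.mem_range.2 hm') (fun _ _ _ => sq_nonneg _)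
    rwa [Finset.sum_pair hne] at h3
  have h4 : (b : ℝ) + ‖ip ε (JJ b x) x m m'‖ ^ 2 ≤
      ∑ k ∈ Finset.range b, ∑ k' ∈ Finset.range b, ‖ip ε (JJ b x) x k k'‖ ^ 2 := by
    rw [← Finset.add_sum_erase _ _ (Finset.mem_range.2 hm)]
    have h5 : ((Finset.range b).erase m).card • (1 : ℝ) ≤ ∑ k ∈ (Finset.range b).erase m,
        ∑ k' ∈ Finset.range b, ‖ip ε (JJ b x) x k k'‖ ^ 2 :=
      Finset.card_nsmul_le_sum _ _ _ fun k hk => h1 k (Finset.mem_of_mem_erase hk)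
    rw [Finset.card_erase_of_mem (Finset.mem_range.2 hm), Finset.card_range, nsmul_eq_mul,
      mul_one, Nat.cast_sub hb0, Nat.cast_one] at h5
    linarith
  rw [hsum] at h4
  have h6 : ‖ip ε (JJ b x) x m m'‖ ^ 2 ≤ 0 := by linarith
  have h7 : ‖ip ε (JJ b x) x m m'‖ = 0 := by
    have := le_antisymm h6 (sq_nonneg _)
    exact pow_eq_zero_iff (two_ne_zero) |>.1 this
  exact norm_eq_zero.1 h7

end E1

open E1

/-- E1. -/
theorem om_orth {ε : ℝ} (hε : 0 < ε) {m m' : ℕ} (hm : ε * (2 * m + 3) ≤ 1)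
    (hm' : ε * (2 * m' + 3) ≤ 1) (x : ℝ) :
    ∑' j : ℤ, conj (om ε m (x + j)) * om ε m' (x + j) = if m = m' then 1 else 0 := by
  split_ifs with h
  · subst h
    rw [tsum_eq_ip hε hm (Nat.lt_succ_self m), ip_self hε hm (Nat.lt_succ_self m)]
  · have hb : ε * (2 * ((max m m' + 1 : ℕ) : ℝ) + 1) ≤ 1 := by
      rcases max_choice m m' with h' | h'
      · rw [h']; push_cast; linarith
      · rw [h']; push_cast; linarith
    have h1 : m < max m m' + 1 := by omega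
    have h2 : m' < max m m' + 1 := by omega
    rw [tsum_eq_ip hε hm h1, ip_off hε hb x h1 h2 h]

lemma om_orth_summable {ε : ℝ} (hε : 0 < ε) {m : ℕ} (hm : ε * (2 * m + 3) ≤ 1) (m' : ℕ) (x : ℝ) :
    Summable fun j : ℤ => conj (om ε m (x + j)) * om ε m' (x + j) := by
  refine summable_of_ne_finset_zero (s := JJ (m + 1) x) ?_
  intro j hj
  rw [term_zero hε hm (Nat.lt_succ_self m) hj]
  simp

/-- the orthogonality relations for scaled windows -/
lemma om_orth_scale {ε : ℝ} (hε : 0 < ε) {ℓ : ℕ} {lam : ℝ} (hlam : |lam| = ℓ) (hℓ : 0 < ℓ)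
    {m m' : ℕ} (hm : ε * (2 * m + 3) ≤ 1) (hm' : ε * (2 * m' + 3) ≤ 1) (x : ℝ) :
    HasSum (fun j : ℤ => conj (om ε m ((x + ℓ * j) / lam)) * om ε m' ((x + ℓ * j) / lam))
      (if m = m' then 1 else 0) := by
  have hℓ' : (0 : ℝ) < ℓ := by exact_mod_cast hℓ
  have hlam0 : lam ≠ 0 := by
    intro h
    rw [h, abs_zero] at hlam
    linarith
  have hs : HasSum (fun j : ℤ => conj (om ε m (x / lam + j)) * om ε m' (x / lam + j))
      (if m = m' then 1 else 0) := by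
    rw [← om_orth hε hm hm' (x / lam)]
    exact (om_orth_summable hε hm m' (x / lam)).hasSum
  rcases abs_choice lam with h | h
  · have e : ∀ j : ℤ, (x + ℓ * j) / lam = x / lam + j := by
      intro j
      rw [← hlam, h, add_div, mul_div_cancel_left₀ _ hlam0]
    simp_rw [e]
    exact hs
  · have e : ∀ j : ℤ, (x + ℓ * j) / lam = x / lam + ((-j : ℤ) : ℝ) := by
      intro j
      rw [← hlam, h]
      push_cast
      field_simp
    simp_rw [e]
    have h2 := (Equiv.neg ℤ).hasSum_iff.2 hs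
    simpa only [Function.comp_def, Equiv.neg_apply] using h2

/-- E4, with the bracket written out. -/
theorem brk_om' {ε : ℝ} (hε : 0 < ε) {ℓ : ℕ} {lam : ℝ} (hlam : |lam| = ℓ) (hℓ : 0 < ℓ)
    {m m' : ℕ} (hm : ε * (2 * m + 3) ≤ 1) (hm' : ε * (2 * m' + 3) ≤ 1) (x : ℝ) :
    ∑' j : ℤ, conj (om ε m ((x + ℓ * j) / lam)) * om ε m' ((x + ℓ * j) / lam) =
      if m = m' then 1 else 0 :=
  (om_orth_scale hε hlam hℓ hm hm' x).tsum_eq

/-- E4. -/
theorem star_om {ε : ℝ} (hε : 0 < ε) {ℓ : ℕ} {lam : ℝ} (hlam : |lam| = ℓ) (hℓ : 0 < ℓ)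
    {m a a' : ℕ} (haa : a ≤ a') (hm : ε * (2 * m + 3) ≤ 1) (ha' : ε * (2 * a' + 1) ≤ 1)
    (x : ℝ) (k : ℤ) :
    ∑' j : ℤ, conj (om ε m ((x + ℓ * j) / lam)) *
      ((Kc ε (ℓ * a' / 2) (x + ℓ * j) (k - ℓ * j) - Kc ε (ℓ * a / 2) (x + ℓ * j) (k - ℓ * j) : ℝ) :
        ℂ) =
      if (ℓ : ℤ) ∣ k ∧ a ≤ m ∧ m < a' then conj (om ε m ((x + k) / lam)) else 0 := by
  have hℓ' : (0 : ℝ) < ℓ := by exact_mod_cast hℓ
  have hlam0 : lam ≠ 0 := by
    intro h
    rw [h, abs_zero] at hlam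
    linarith
  by_cases hk : (ℓ : ℤ) ∣ k
  · obtain ⟨κ, hκ⟩ := hk
    have hz : ∀ j : ℤ, ∃ z : ℤ, (z : ℝ) = ((k : ℝ) - ℓ * j) / lam := by
      intro j
      rcases abs_choice lam with h | h
      · refine ⟨κ - j, ?_⟩
        rw [hκ, ← hlam, h]
        have : (lam : ℝ) ≠ 0 := hlam0
        push_cast
        rw [← hlam, h]
        field_simp
      · refine ⟨-(κ - j), ?_⟩
        rw [hκ]
        push_cast
        rw [← hlam, h]
        field_simp
        ring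
    have hterm : ∀ j : ℤ, conj (om ε m ((x + ℓ * j) / lam)) *
        ((Kc ε (ℓ * a' / 2) (x + ℓ * j) (k - ℓ * j) -
          Kc ε (ℓ * a / 2) (x + ℓ * j) (k - ℓ * j) : ℝ) : ℂ) =
        ∑ m'' ∈ Finset.Ico a a', conj (om ε m'' ((x + k) / lam)) *
          (conj (om ε m ((x + ℓ * j) / lam)) * om ε m'' ((x + ℓ * j) / lam)) := by
      intro j
      obtain ⟨z, hz⟩ := hz j
      have h1 := om_sum hε haa ha' ((x + ℓ * j) / lam) z
      rw [hz, Kc_scale _ _ _ hlam0, Kc_scale _ _ _ hlam0, hlam, ← mul_div_assoc,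
        ← mul_div_assoc] at h1
      rw [← h1, Finset.mul_sum]
      refine Finset.sum_congr rfl fun m'' _ => ?_
      have e : (x + ℓ * j) / lam + ((k : ℝ) - ℓ * j) / lam = (x + k) / lam := by
        rw [← add_div]
        congr 1
        ring
      rw [e]
      ring
    simp_rw [hterm]
    have hsum : ∀ m'' ∈ Finset.Ico a a', HasSum (fun j : ℤ => conj (om ε m'' ((x + k) / lam)) *
        (conj (om ε m ((x + ℓ * j) / lam)) * om ε m'' ((x + ℓ * j) / lam)))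
        (conj (om ε m'' ((x + k) / lam)) * (if m = m'' then 1 else 0)) := by
      intro m'' hm''
      rw [Finset.mem_Ico] at hm''
      have h2 : (m'' : ℝ) + 1 ≤ a' := by exact_mod_cast hm''.2
      have h3 : ε * (2 * m'' + 3) ≤ 1 := by nlinarith
      exact (om_orth_scale hε hlam hℓ hm h3 x).mul_left _
    rw [(hasSum_sum hsum).tsum_eq]
    by_cases hma : a ≤ m ∧ m < a'
    · rw [if_pos ⟨⟨κ, hκ⟩, hma⟩, Finset.sum_eq_single_of_mem m (Finset.mem_Ico.2 hma)]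
      · simp
      · intro m'' _ hne
        rw [if_neg hne.symm, mul_zero]
    · rw [if_neg (fun h => hma h.2)]
      refine Finset.sum_eq_zero fun m'' hm'' => ?_
      have : m ≠ m'' := by
        rintro rfl
        exact hma (Finset.mem_Ico.1 hm'')
      rw [if_neg this, mul_zero]
  · rw [if_neg (fun h => hk h.1)]
    have hK : ∀ (c : ℕ) (j : ℤ), Kc ε (ℓ * c / 2) (x + ℓ * j) (k - ℓ * j) = 0 := by
      intro c j
      by_contra hne
      obtain ⟨_, z, hz⟩ := Kc_lat hne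
      apply hk
      refine ⟨j + c * z, ?_⟩
      have : (k : ℝ) = ((ℓ * (j + c * z) : ℤ) : ℝ) := by
        push_cast
        linarith
      exact_mod_cast this
    simp_rw [hK]
    simp

end Wav
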